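import Pool.Agent.helper47.MSW.SpecA

/-!
# Row msw:HMN
-/

set_option autoImplicit false

namespace Pool.Agent.MSW

open Equiv Finset Function MeasureTheory Pool.Agent.helper48.PP
open Pool.Agent.DSW (Pr Has GP wt)
open scoped ENNReal Classical

noncomputable section

theorem HMN_box (a a' z z' : Pt) (ha : a' ≤ a) (hz : z ≤ z') : box a z ⊆ box a' z' := by
  intro c hc
  rw [mem_box] at hc ⊢
  exact ⟨⟨le_trans ha.1 hc.1.1, le_trans ha.2 hc.1.2⟩, lt_of_lt_of_le hc.2.1 hz.1,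
    lt_of_lt_of_le hc.2.2 hz.2⟩

/-- Row HMN. -/
theorem HMN (hHLA : HLA_stmt) : HMN_stmt := by
  obtain ⟨h1, -, -, h4, -, -, -⟩ := hHLA
  refine ⟨?_, ?_, ?_, ?_, ?_, ?_, ?_, ?_⟩
  · intro X ω z hz
    obtain ⟨z', hz', hm⟩ := exists_minimal_le_of_wellFoundedLT (fun y => HL X ω 0 y) z hz
    refine ⟨z', hz', hm.1, fun y hy hyz => ?_⟩
    exact le_antisymm hyz (hm.2 hy hyz)
  · intro X ω z z' hz hz' hle
    exact hz'.2 z hz.1 hle
  · intro X z ω ω' H
    have key : ∀ y, y ≤ z → (HL X ω 0 y ↔ HL X ω' 0 y) := fun y hy =>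
      h4 X 0 y ω ω' (fun c hc => H c (HMN_box 0 0 y z le_rfl hy hc))
    constructor
    · intro h
      exact ⟨(key z le_rfl).1 h.1, fun y hy hyz => h.2 y ((key y hyz).2 hy) hyz⟩
    · intro h
      exact ⟨(key z le_rfl).2 h.1, fun y hy hyz => h.2 y ((key y hyz).1 hy) hyz⟩
  · intro Y ω q w hq
    have hfin : {y : Pt | HL Y ω y w}.Finite := by
      refine Set.Finite.subset (Set.finite_Icc (0 : Pt) w) ?_
      intro y hy
      exact ⟨⟨Nat.zero_le _, Nat.zero_le _⟩, h1 Y ω y w hy⟩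
    obtain ⟨q', hq', hm⟩ := hfin.exists_le_maximal (show q ∈ {y : Pt | HL Y ω y w} from hq)
    refine ⟨q', hq', hm.1, fun y hy hyz => ?_⟩
    exact le_antisymm (hm.2 hy hyz) hyz
  · intro Y ω w q hq
    exact h1 Y ω q w hq.1
  · intro Y ω w q q' hq hq' hle
    exact (hq.2 q' hq'.1 hle).symm
  · intro Y w q ω ω' H
    have key : ∀ y, q ≤ y → (HL Y ω y w ↔ HL Y ω' y w) := fun y hy =>
      h4 Y y w ω ω' (fun c hc => H c (HMN_box y q w w hy le_rfl hc))
    constructor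
    · intro h
      exact ⟨(key q le_rfl).1 h.1, fun y hy hyz => h.2 y ((key y hyz).2 hy) hyz⟩
    · intro h
      exact ⟨(key q le_rfl).2 h.1, fun y hy hyz => h.2 y ((key y hyz).1 hy) hyz⟩
  · intro ω z
    have h0 : ∀ y : Pt, (0 : Pt) ≤ y := fun y => ⟨Nat.zero_le _, Nat.zero_le _⟩
    constructor
    · intro h
      exact (h.2 0 (h0 0) (h0 z)).symm
    · rintro rfl
      exact ⟨h0 0, fun y _ hy => le_antisymm hy (h0 y)⟩

end

end Pool.Agent.MSW
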