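import Pool.Agent.helper47.MSW.SpecA
import Pool.Agent.helper47.MSW.SpecD

/-!
# Row msw:WH1
-/

set_option autoImplicit false

namespace Pool.Agent.MSW

open Equiv Finset Function MeasureTheory Pool.Agent.helper48.PP
open Pool.Agent.DSW (Pr Has GP wt)
open scoped ENNReal Classical

noncomputable section

/-- Row WH1. -/
theorem WH1 (hONE : ONE_stmt) : WH1_stmt := by
  intro w m p hp0 hp1
  have hcard : (box 0 w).card = w.1 * w.2 := by
    unfold box
    rw [Finset.card_product, Nat.card_Ico, Nat.card_Ico]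
    rfl
  have hsub : {ω : Om | m ≤ (tr ω 0 w).card} ⊆
      ⋃ T ∈ Finset.powersetCard m (box 0 w), {ω : Om | ∀ c ∈ T, ω c = true} := by
    intro ω hω
    obtain ⟨T, hT, hTc⟩ := Finset.exists_subset_card_eq (show m ≤ (tr ω 0 w).card from hω)
    rw [Set.mem_iUnion₂]
    refine ⟨T, Finset.mem_powersetCard.2 ⟨hT.trans (Finset.filter_subset _ _), hTc⟩, ?_⟩
    intro c hc
    exact (Finset.mem_filter.1 (hT hc)).2
  refine le_trans (measure_mono hsub) (le_trans (measure_biUnion_finset_le _ _) ?_)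
  have h1 : ∑ T ∈ Finset.powersetCard m (box 0 w), Pm p {ω : Om | ∀ c ∈ T, ω c = true} =
      ENNReal.ofReal (((w.1 * w.2).choose m : ℝ) * p ^ m) := by
    rw [Finset.sum_congr rfl (g := fun _ => ENNReal.ofReal (p ^ m))]
    · rw [Finset.sum_const, Finset.card_powersetCard, hcard, nsmul_eq_mul,
        ENNReal.ofReal_mul (by positivity), ENNReal.ofReal_natCast]
    · intro T hT
      rw [hONE p T hp0 hp1, (Finset.mem_powersetCard.1 hT).2, ENNReal.ofReal_pow hp0]
  rw [h1]
  refine ENNReal.ofReal_le_ofReal ?_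
  have h2 : ((w.1 * w.2).choose m : ℝ) ≤ ((w.1 * w.2 : ℕ) : ℝ) ^ m / (m.factorial : ℝ) :=
    Nat.choose_le_pow_div m (w.1 * w.2)
  calc ((w.1 * w.2).choose m : ℝ) * p ^ m
      ≤ ((w.1 * w.2 : ℕ) : ℝ) ^ m / (m.factorial : ℝ) * p ^ m :=
        mul_le_mul_of_nonneg_right h2 (by positivity)
    _ = ((w.1 : ℝ) * (w.2 : ℝ) * p) ^ m / ((m.factorial : ℕ) : ℝ) := by
        push_cast
        ring

end

end Pool.Agent.MSW
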